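import Pool.Agent.T2H38.CT.Main
import Mathlib.Order.WellFoundedSet

/-!
# Finiteness of the primitive lists
-/

set_option autoImplicit false
set_option linter.unusedSectionVars false

open CategoryTheory AlgebraicGeometry

universe u v

namespace Pool.Agent.T2H38.CT

open Pool.Agent.H914 Pool.Agent.H914.VarClass Pool.Agent.H914.VarClass.Obj
  Pool.Agent.H914.WeilCohomology Pool.Agent.H281R3.HT Pool.Agent.W552 Pool.Agent.TH125.Gal
  Pool.Agent.Y132.AF Pool.Agent.Y132.AH Pool.Agent.T2H38.CP

section comb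

theorem Split.sublist_right {α : Type*} {L L₁ L₂ : List α} (h : Split L L₁ L₂) :
    L₂.Sublist L := by
  induction h with
  | nil => exact List.Sublist.slnil
  | left a _ ih => exact ih.cons a
  | right a _ ih => exact ih.cons_cons a

/-- A set of natural numbers attached to the elements of a set is bounded if every sequence in the set
has two different members with the same number. -/
theorem bounded_of_seq {α : Type*} {P : α → Prop} (f : α → ℕ)
    (h : ∀ x : ℕ → α, (∀ n, P (x n)) → ∃ m n, m < n ∧ f (x m) = f (x n)) :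
    ∃ N, ∀ a, P a → f a ≤ N := by
  by_contra hcon
  push Not at hcon
  choose g hg hg' using hcon
  let x : ℕ → α := fun n => Nat.rec (g 0) (fun _ a => g (f a)) n
  have hx : ∀ n, P (x n) := by
    intro n
    cases n with
    | zero => exact hg _
    | succ n => exact hg _
  have hmono : StrictMono fun n => f (x n) := by
    refine strictMono_nat_of_lt_succ fun n => ?_
    exact hg' (f (x n))
  obtain ⟨m, n, hmn, heq⟩ := h x hx
  exact absurd heq (hmono hmn).ne

variable {K : Type} [Field K] {ι : Type}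

/-- **Dickson's lemma** for primitive relations. -/
theorem primitive_bounded [Finite ι] {S : ι → (RingAut K → ℤ) → Prop}
    {T : (RingAut K → ℤ) → Prop} (hS : ∀ i, {s | S i s}.Finite) (hT : {s | T s}.Finite) :
    ∃ N, ∀ L : List ι, IsPrimitiveList S T L → L.length ≤ N := by
  classical
  have hfin : Finite {a : ι × (RingAut K → ℤ) // S a.1 a.2} := by
    have h1 : Set.Finite {a : ι × (RingAut K → ℤ) | S a.1 a.2} := by
      have h2 : {a : ι × (RingAut K → ℤ) | S a.1 a.2} ⊆
          ⋃ i : ι, (fun s => (i, s)) '' {s | S i s} := by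
        rintro ⟨i, s⟩ h
        exact Set.mem_iUnion.2 ⟨i, s, h, rfl⟩
      exact (Set.finite_iUnion fun i => (hS i).image _).subset h2
    exact h1.to_subtype
  have key : ∀ r, ∃ N, ∀ Λ : List (ι × (RingAut K → ℤ)),
      (∀ a ∈ Λ, S a.1 a.2) ∧ IsPrimitiveRelation Λ r → Λ.length ≤ N := by
    intro r
    refine bounded_of_seq List.length fun x hx => ?_
    by_cases hnil : ∃ m n, m < n ∧ x m = [] ∧ x n = []
    · obtain ⟨m, n, hmn, h1, h2⟩ := hnil
      exact ⟨m, n, hmn, by rw [h1, h2]⟩
    -- drop the member which may be empty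
    obtain ⟨n₀, hn₀⟩ : ∃ n₀, ∀ n, n₀ ≤ n → x n ≠ [] := by
      by_cases h : ∃ m, x m = []
      · obtain ⟨m, hm⟩ := h
        refine ⟨m + 1, fun n hn h' => hnil ⟨m, n, by omega, hm, h'⟩⟩
      · push Not at h
        exact ⟨0, fun n _ => h n⟩
    obtain ⟨m, n, hmn, hle⟩ := wellQuasiOrdered_le (fun n =>
      (fun a => Multiset.count a.1 (x (n₀ + n) : Multiset (ι × (RingAut K → ℤ))) :
        {a : ι × (RingAut K → ℤ) // S a.1 a.2} → ℕ))
    refine ⟨n₀ + m, n₀ + n, by omega, ?_⟩
    have h1 : (x (n₀ + m) : Multiset (ι × (RingAut K → ℤ))) ≤ x (n₀ + n) := by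
      rw [Multiset.le_iff_count]
      intro a
      by_cases ha : S a.1 a.2
      · exact hle ⟨a, ha⟩
      · rw [Multiset.count_eq_zero_of_notMem fun h' => ha ((hx (n₀ + m)).1 a
          (Multiset.mem_coe.1 h'))]
        exact Nat.zero_le _
    obtain ⟨Λ₁, hp, hsub⟩ := Multiset.coe_le.1 h1
    obtain ⟨Λ₂, hs⟩ := exists_split hsub
    have h2 := hs.sum Prod.snd
    have h3 : (Λ₁.map Prod.snd).sum = ((x (n₀ + m)).map Prod.snd).sum := (hp.map Prod.snd).sum_eq
    have h4 := (hx (n₀ + m)).2.1
    have h5 := (hx (n₀ + n)).2.1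
    have h6 : (Λ₂.map Prod.snd).sum = 0 := by
      rw [h3, eq_neg_of_add_eq_zero_left h4, eq_neg_of_add_eq_zero_left h5] at h2
      exact add_eq_left.1 h2
    have h7 := hs.length
    have h8 := hp.length_eq
    rcases (hx (n₀ + n)).2.2 Λ₂ hs.sublist_right h6 with h | h
    · rw [h, List.length_nil] at h7
      omega
    · rw [h] at h7
      exact absurd (List.length_eq_zero_iff.1 (by omega : (x (n₀ + m)).length = 0))
        (hn₀ _ (by omega))
  choose N hN using key
  refine ⟨hT.toFinset.sup N, ?_⟩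
  rintro L ⟨Λ, r, rfl, h1, h2, h3⟩
  rw [List.length_map]
  exact (hN r Λ ⟨h1, h3⟩).trans (Finset.le_sup (f := N) (hT.mem_toFinset.2 h2))

end comb

variable {k : Type u} [Field k] {𝒱 : VarClass k} {ops : CycleOps 𝒱}
  {W : WeilCohomology.{u, 0} ops} {Ψ : HodgeData W}

/-- The levels of linearly independent classes of pure level which occur in a class of pure level. -/
theorem IsWt.coeff_indep {Z : 𝒱.Obj} {β : Type*} [Fintype β] {v : β → W.H Z}
    (hv : LinearIndependent W.K v) {m : β → RingAut W.K → ℤ} (hB : ∀ b, IsWt Ψ Z (m b) (v b))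
    {s : RingAut W.K → ℤ} {a : β → W.K} (hc : IsWt Ψ Z s (∑ b, a b • v b)) (b : β)
    (hb : a b ≠ 0) : m b = s := by
  classical
  funext τ
  choose p q hpq hm using fun b => hB b τ
  obtain ⟨c, c', hcτ, ha⟩ := hc τ
  have hsum : Ψ.coeff Z τ (∑ b, a b • v b) = ∑ b, τ (a b) • Ψ.coeff Z τ (v b) := by
    rw [map_sum]
    exact Finset.sum_congr rfl fun b _ => coeff_smul _ _ _
  by_contra hne
  have hne' : (p b, q b) ≠ (c, c') := by
    intro h
    rw [Prod.mk.injEq] at h
    apply hne
    rw [← hm b, ← ha, h.1, h.2]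
  have h1 : prj (Ψ.isHodgeDec Z).isInternal (p b, q b) (Ψ.coeff Z τ (∑ b, a b • v b)) = 0 :=
    prj_ne _ (Ne.symm hne') hcτ
  rw [hsum, map_sum] at h1
  have h2 : ∀ b', prj (Ψ.isHodgeDec Z).isInternal (p b, q b) (τ (a b') •
      Ψ.coeff Z τ (v b')) = (if (p b', q b') = (p b, q b) then τ (a b') else 0) •
        Ψ.coeff Z τ (v b') := by
    intro b'
    rw [map_smul]
    split_ifs with h
    · rw [← h, prj_same _ (hpq b')]
    · rw [prj_ne _ h (hpq b'), smul_zero, zero_smul]
  rw [Finset.sum_congr rfl fun b' _ => h2 b'] at h1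
  have h3 := congrArg (Ψ.coeff Z τ⁻¹) h1
  rw [map_zero, map_sum] at h3
  have h4 : ∀ b', Ψ.coeff Z τ⁻¹ ((if (p b', q b') = (p b, q b) then τ (a b') else 0) •
        Ψ.coeff Z τ (v b')) = (if (p b', q b') = (p b, q b) then a b' else 0) • v b' := by
    intro b'
    rw [coeff_smul, ← coeff_mul, inv_mul_cancel, coeff_one]
    congr 1
    split_ifs
    · rw [← RingAut.mul_apply, inv_mul_cancel, RingAut.one_apply]
    · rw [map_zero]
  rw [Finset.sum_congr rfl fun b' _ => h4 b'] at h3
  have h5 := Fintype.linearIndependent_iff.1 hv _ h3 b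
  rw [if_pos rfl] at h5
  exact hb h5

/-- **The characters of a variety are finite in number.** -/
theorem finite_characters (Z : 𝒱.Obj) : {s | IsCharacter Ψ Z s}.Finite := by
  obtain ⟨S, hS, hSspan, hSli⟩ := exists_linearIndependent W.K
    {x : W.H Z | ∃ s, HasLevel (Ψ.on Z) s x}
  have hfin : S.Finite := hSli.setFinite
  have := hfin.fintype
  choose m hm using fun b : S => hS b.2
  refine (Set.finite_range m).subset ?_
  rintro s ⟨x, hx0, hx⟩
  have h1 : x ∈ Submodule.span W.K S := by
    rw [hSspan]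
    exact Submodule.subset_span ⟨s, hx⟩
  obtain ⟨a, rfl⟩ : ∃ a : S → W.K, ∑ b, a b • (b : W.H Z) = x := by
    have h2 := (Submodule.mem_span_range_iff_exists_fun W.K (v := fun b : S => (b : W.H Z))
      (x := x)).1 (by rwa [Subtype.range_coe])
    exact h2
  obtain ⟨b, hb⟩ : ∃ b, a b ≠ 0 := by
    by_contra hcon
    push Not at hcon
    exact hx0 (Finset.sum_eq_zero fun b _ => by rw [hcon b, zero_smul])
  exact ⟨b, IsWt.coeff_indep hSli hm hx b hb⟩

/-- **The primitive lists are bounded.** -/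
theorem primitiveFor_bounded {ι : Type} [Finite ι] (X : ι → 𝒱.Obj) (U : 𝒱.Obj) :
    ∃ N, ∀ L : List ι, IsPrimitiveFor Ψ X U L → L.length ≤ N :=
  primitive_bounded (fun i => finite_characters (X i)) (finite_characters U)

/-- **The primitive lists are finite in number.** -/
theorem finite_primitive {ι : Type} [Finite ι] (X : ι → 𝒱.Obj) (U : 𝒱.Obj) :
    {L : List ι | IsPrimitiveFor Ψ X U L}.Finite := by
  obtain ⟨N, hN⟩ := primitiveFor_bounded (Ψ := Ψ) X U
  exact (List.finite_length_le ι N).subset fun L hL => hN L hL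

end Pool.Agent.T2H38.CT
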