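import Pool.Agent.T2H38.CP.Defs

/-!
# Products with varieties of CM type: definitions
-/

set_option autoImplicit false

open CategoryTheory AlgebraicGeometry

universe u v

namespace Pool.Agent.T2H38.CT

open Pool.Agent.H914 Pool.Agent.Y132.AH Pool.Agent.T2H38.CP

section alg

variable {K : Type} [Field K] {A : Type} [Ring A] [Algebra K A]
  {gr : ℕ → Submodule K A} {n : ℕ} {tr : A →ₗ[K] K} {Cl : ℕ → Set A}

/-- The cohomology is spanned by one-dimensional subspaces which are stable under the Mumford-Tate
group. -/
def SpannedByLevels (Ψ : HodgeAlg gr n tr Cl) : Prop :=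
  Submodule.span K {x | ∃ s, HasLevel Ψ s x} = ⊤

/-- The sum of the functions in the list `Λ` and of `r` is zero, and no other part of the list `Λ` than
the empty one and (if `r = 0`) the whole list has the sum zero. -/
def IsPrimitiveRelation {K ι : Type} [Field K] (Λ : List (ι × (RingAut K → ℤ)))
    (r : RingAut K → ℤ) : Prop :=
  (Λ.map Prod.snd).sum + r = 0 ∧
    ∀ Λ' : List (ι × (RingAut K → ℤ)), Λ'.Sublist Λ → (Λ'.map Prod.snd).sum = 0 →
      Λ' = [] ∨ Λ' = Λ

/-- For the entries `i` of the list `L` there are functions with the properties `S i` and there is a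
function with the property `T` which form a primitive relation. -/
def IsPrimitiveList {K ι : Type} [Field K] (S : ι → (RingAut K → ℤ) → Prop)
    (T : (RingAut K → ℤ) → Prop) (L : List ι) : Prop :=
  ∃ Λ r, Λ.map Prod.fst = L ∧ (∀ a ∈ Λ, S a.1 a.2) ∧ T r ∧ IsPrimitiveRelation Λ r

/-- The functions `s` and `- s` do not both occur, except for `s = 0`. -/
def NoCommon {K : Type} [Field K] (S T : (RingAut K → ℤ) → Prop) : Prop :=
  ∀ s, S s → T (-s) → s = 0

end alg

variable {k : Type u} [Field k] {𝒱 : VarClass k} {ops : CycleOps 𝒱}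
  {W : WeilCohomology.{u, 0} ops}

/-- The Hodge structure on the cohomology of `X` is of *CM type*: its complexification is a sum of
one-dimensional representations of the Mumford-Tate group. -/
def IsCMType (Ψ : HodgeData W) (X : 𝒱.Obj) : Prop := SpannedByLevels (Ψ.on X)

/-- The list `L = [i₁, …, i_n]` is *primitive* for `U`: there are characters `s_a` of the Mumford-Tate
group in the cohomology of `X i_a` and a character `r` in the cohomology of `U` such that the sum of
their levels is zero and no part of the list of the `s_a` except for the empty and the full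
list has the sum zero. -/
def IsPrimitiveFor (Ψ : HodgeData W) {ι : Type} (X : ι → 𝒱.Obj) (U : 𝒱.Obj) (L : List ι) : Prop :=
  IsPrimitiveList (fun i => IsCharacter Ψ (X i)) (IsCharacter Ψ U) L

/-- The varieties which are isomorphic to a product `X i₁ × (X i₂ × (⋯ × U))` for a variety `U` in the
class `𝒰` and a list `[i₁, i₂, …]` which is primitive for `U`. -/
def primitiveProducts (Ψ : HodgeData W) (𝒰 : Set 𝒱.Obj) {ι : Type} (X : ι → 𝒱.Obj) :
    Set 𝒱.Obj :=
  {Y | ∃ U ∈ 𝒰, ∃ L : List ι, IsPrimitiveFor Ψ X U L ∧ Nonempty (Y ≅ prodList X U L)}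

end Pool.Agent.T2H38.CT
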