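import Pool.Agent.T2H38.CT.Main

/-!
# Varieties whose characters occur in another variety
-/

set_option autoImplicit false
set_option linter.unusedSectionVars false

open CategoryTheory AlgebraicGeometry

universe u v

namespace Pool.Agent.T2H38.CT

open Pool.Agent.H914 Pool.Agent.H914.VarClass Pool.Agent.H914.VarClass.Obj
  Pool.Agent.H914.WeilCohomology Pool.Agent.H281R3.HT Pool.Agent.W552 Pool.Agent.TH125.Gal
  Pool.Agent.Y132.AF Pool.Agent.Y132.AH Pool.Agent.T2H38.CP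

variable {k : Type u} [Field k] {𝒱 : VarClass k} {ops : CycleOps 𝒱}
  {W : WeilCohomology.{u, 0} ops} {Ψ : HodgeData W} {E : Embeddings W}

/-- The classes with nonzero trace have level zero. -/
theorem IsWt.tr_ne {X : 𝒱.Obj} {m : RingAut W.K → ℤ} {y : W.H X} (h : IsWt Ψ X m y)
    (h0 : W.tr X y ≠ 0) : m = 0 := by
  funext τ
  obtain ⟨p, q, h1, h2⟩ := h τ
  rw [← h2]
  by_contra hne
  have h3 : W.tr X (Ψ.coeff X τ y) = 0 := by
    refine tr_hodge (Ψ.isHodgeDec X) (fun ha hi => W.tr_eq_zero ha hi) (i := (p, q)) ?_ h1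
    intro h4
    rw [Prod.mk.injEq] at h4
    apply hne
    rw [h4.1, h4.2]
    simp
  rw [(Ψ.isCoeffAct X).tr_act] at h3
  exact h0 ((map_eq_zero_iff τ τ.injective).1 h3)

/-- Poincaré duality for the characters of a variety of CM type. -/
theorem exists_dual {U : 𝒱.Obj} (hU : IsCMType Ψ U) {s : RingAut W.K → ℤ} {w : W.H U}
    (hw0 : w ≠ 0) (hw : IsWt Ψ U s w) :
    ∃ v : W.H U, IsWt Ψ U (-s) v ∧ W.tr U (v * w) ≠ 0 := by
  obtain ⟨β, _, B, m, hB⟩ := exists_basis hU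
  obtain ⟨b, hb⟩ : ∃ b, W.tr U (B b * w) ≠ 0 := by
    by_contra hcon
    push Not at hcon
    apply hw0
    refine nondeg_right fun v => ?_
    rw [← B.sum_repr v, Finset.sum_mul, map_sum]
    exact Finset.sum_eq_zero fun b _ => by rw [smul_mul_assoc, map_smul, hcon b, smul_zero]
  refine ⟨B b, ?_, hb⟩
  have h1 : m b + s = 0 := IsWt.tr_ne ((hB b).mul hw) hb
  rw [← eq_neg_of_add_eq_zero_left h1]
  exact hB b

/-- The projection `X × (U × Y) → X × U`. -/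
noncomputable def q12 (X U Y : 𝒱.Obj) : X.prod (U.prod Y) ⟶ X.prod U :=
  lift (fst X (U.prod Y)) (snd X (U.prod Y) ≫ fst U Y)

/-- The projection `X × (U × Y) → X × Y`. -/
noncomputable def q13 (X U Y : 𝒱.Obj) : X.prod (U.prod Y) ⟶ X.prod Y :=
  lift (fst X (U.prod Y)) (snd X (U.prod Y) ≫ snd U Y)

theorem push_q13 (X U Y : 𝒱.Obj) {θ : W.H U} {a : ℕ} (hθ : θ ∈ W.gr U (2 * a))
    (c : W.H (X.prod Y)) :
    W.push (q13 X U Y) (W.map (q13 X U Y) c * W.map (snd X (U.prod Y) ≫ fst U Y) θ) =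
      W.tr U θ • c := by
  apply W.tr_ext
  intro b
  rw [W.tr_push, smul_mul_assoc, map_smul, smul_eq_mul]
  have hev := W.even_comm (W.map_mem (snd X (U.prod Y) ≫ fst U Y) (i := 2 * a) hθ)
    (W.map (q13 X U Y) b)
  rw [mul_assoc, hev, ← mul_assoc, ← map_mul]
  generalize c * b = d
  refine W.kunneth_induction (p := fun d => W.tr _ (W.map (q13 X U Y) d *
    W.map (snd X (U.prod Y) ≫ fst U Y) θ) = W.tr U θ * W.tr _ d) ?_ ?_ d
  · intro x y hx hy
    rw [map_add, add_mul, map_add, map_add, mul_add, hx, hy]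
  · intro i j x hx y hy
    have e1 : W.map (q13 X U Y) (W.map (fst X Y) x * W.map (snd X Y) y) *
        W.map (snd X (U.prod Y) ≫ fst U Y) θ =
        W.map (fst X (U.prod Y)) x * W.map (snd X (U.prod Y))
          (W.map (fst U Y) θ * W.map (snd U Y) y) := by
      simp only [map_mul, ← W.map_comp]
      rw [show q13 X U Y ≫ fst X Y = fst X (U.prod Y) from Obj.lift_fst _ _,
        show q13 X U Y ≫ snd X Y = snd X (U.prod Y) ≫ snd U Y from Obj.lift_snd _ _]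
      have h2 := W.even_comm (W.map_mem (snd X (U.prod Y) ≫ fst U Y) hθ)
        (W.map (snd X (U.prod Y) ≫ snd U Y) y)
      rw [h2, mul_assoc]
    rw [e1, W.tr_prod, W.tr_prod, W.tr_prod]
    ring

/-- Composition of external products. -/
theorem push_ext {X U Y : 𝒱.Obj} (x : W.H X) (y : W.H Y) {v w : W.H U}
    {a : ℕ} (hvw : v * w ∈ W.gr U (2 * a)) :
    W.push (q13 X U Y) (W.map (q12 X U Y) (W.map (fst X U) x * W.map (snd X U) v) *
      W.map (snd X (U.prod Y)) (W.map (fst U Y) w * W.map (snd U Y) y)) =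
      W.tr U (v * w) • (W.map (fst X Y) x * W.map (snd X Y) y) := by
  rw [← push_q13 X U Y hvw]
  congr 1
  simp only [map_mul, ← W.map_comp]
  rw [show q12 X U Y ≫ fst X U = fst X (U.prod Y) from Obj.lift_fst _ _,
    show q12 X U Y ≫ snd X U = snd X (U.prod Y) ≫ fst U Y from Obj.lift_snd _ _,
    show q13 X U Y ≫ fst X Y = fst X (U.prod Y) from Obj.lift_fst _ _,
    show q13 X U Y ≫ snd X Y = snd X (U.prod Y) ≫ snd U Y from Obj.lift_snd _ _]
  have h2 := W.even_comm (W.map_mem (snd X (U.prod Y) ≫ fst U Y) hvw)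
    (W.map (snd X (U.prod Y) ≫ snd U Y) y)
  rw [map_mul] at h2
  rw [mul_assoc, mul_assoc, ← h2]
  simp only [mul_assoc]

/-- **Transitivity.** Let `X` and `U` be of CM type and let the characters of `X` occur in the
cohomology of `U`. If all Hodge classes on `X × U` and on `U × Y` are absolute then all Hodge classes
on `X × Y` are absolute. -/
theorem abs_trans [IsAlgClosed W.K] {X U Y : 𝒱.Obj} (hX : IsCMType Ψ X) (hU : IsCMType Ψ U)
    (hc : ∀ s, IsCharacter Ψ X s → IsCharacter Ψ U s) (h1 : AllAbsolute Ψ E (X.prod U))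
    (h2 : AllAbsolute Ψ E (U.prod Y)) : AllAbsolute Ψ E (X.prod Y) := by
  rw [← hodgeIn_abs]
  intro j c hcH
  obtain ⟨β, _, B, m, hB⟩ := exists_basis hX
  rw [expand B c]
  refine Submodule.sum_mem _ fun b _ => ?_
  have h3 : IsWt Ψ Y (0 - m b) (ctr (B.coord b) c) := IsWt.coord B hB (IsWt.hodge hcH) b
  rw [zero_sub] at h3
  obtain ⟨w, hw0, hw⟩ := hc (m b) ⟨B b, B.ne_zero b, hB b⟩
  obtain ⟨v, hv, hvw⟩ := exists_dual hU hw0 hw
  have h4 : IsWt Ψ (X.prod U) 0 (W.map (fst X U) (B b) * W.map (snd X U) v) := by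
    have h := ((hB b).map (fst X U)).mul (hv.map (snd X U))
    rwa [add_neg_cancel] at h
  have h5 : IsWt Ψ (U.prod Y) 0 (W.map (fst U Y) w * W.map (snd U Y) (ctr (B.coord b) c)) := by
    have h := (IsWt.map (fst U Y) hw).mul (h3.map (snd U Y))
    rwa [add_neg_cancel] at h
  obtain ⟨dv, hdv⟩ := hv.gr
  obtain ⟨dw, hdw⟩ := IsWt.gr hw
  have hd : dv + dw = 2 * U.dim := by
    by_contra hne
    exact hvw (W.tr_eq_zero (W.mul_mem hdv hdw) hne)
  have h6 : v * w ∈ W.gr U (2 * U.dim) := by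
    rw [← hd]
    exact W.mul_mem hdv hdw
  have h7 := (absSystem Ψ E).push_mem (q13 X U Y) ((absSystem Ψ E).mul_mem
    ((absSystem Ψ E).map_mem (q12 X U Y) (mem_abs h1 h4))
    ((absSystem Ψ E).map_mem (snd X (U.prod Y)) (mem_abs h2 h5)))
  rw [push_ext _ _ h6] at h7
  have h8 := Submodule.smul_mem _ (W.tr U (v * w))⁻¹ h7
  rwa [smul_smul, inv_mul_cancel₀ hvw, one_smul] at h8

variable {ι : Type} {X D : ι → 𝒱.Obj}

/-- **Varieties whose characters occur in the class.** -/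
theorem abs_dominated [IsAlgClosed W.K] (hX : ∀ i, IsCMType Ψ (X i)) (hD : ∀ i, IsCMType Ψ (D i))
    (hc : ∀ i s, IsCharacter Ψ (X i) s → IsCharacter Ψ (D i) s)
    (h1 : ∀ i, AllAbsolute Ψ E ((X i).prod (D i))) {𝒰 : Set 𝒱.Obj}
    (h𝒰 : ∀ U ∈ 𝒰, ∀ U' ∈ 𝒰, U.prod U' ∈ 𝒰) (hD𝒰 : ∀ i, D i ∈ 𝒰)
    (h2 : ∀ U ∈ 𝒰, AllAbsolute Ψ E U) (L : List ι) :
    ∀ U ∈ 𝒰, AllAbsolute Ψ E (prodList X U L) := by
  induction L with
  | nil => exact h2
  | cons i L ih =>
    intro U hU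
    refine abs_trans (hX i) (hD i) (hc i) (h1 i) ?_
    obtain ⟨e⟩ := iso_append X (D i) U [] L
    exact abs_iso Ψ E e.symm (ih _ (h𝒰 _ (hD𝒰 i) _ hU))

/-- **Full faithfulness**, reduction to the products of two varieties. -/
theorem full_dominated [IsAlgClosed W.K] (hX : ∀ i, IsCMType Ψ (X i))
    (hD : ∀ i, IsCMType Ψ (D i)) (hc : ∀ i s, IsCharacter Ψ (X i) s → IsCharacter Ψ (D i) s)
    {𝒰 : Set 𝒱.Obj} (h𝒰 : ∀ U ∈ 𝒰, ∀ U' ∈ 𝒰, U.prod U' ∈ 𝒰) (hD𝒰 : ∀ i, D i ∈ 𝒰) :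
    FullyFaithfulOn Ψ E (productsWith 𝒰 X) ↔
      FullyFaithfulOn Ψ E 𝒰 ∧ ∀ i, AllAbsolute Ψ E ((X i).prod (D i)) := by
  constructor
  · intro h
    exact ⟨fun A hA B hB => h A ⟨_, hA, [], ⟨Iso.refl _⟩⟩ B ⟨_, hB, [], ⟨Iso.refl _⟩⟩,
      fun i => abs_of_full Ψ E h ⟨D i, hD𝒰 i, [i], ⟨Iso.refl _⟩⟩⟩
  · rintro ⟨h, h1⟩
    exact full_of_abs Ψ E h𝒰 fun U hU L =>
      abs_dominated hX hD hc h1 h𝒰 hD𝒰 (fun U hU => abs_of_full Ψ E h hU) L U hU

end Pool.Agent.T2H38.CT
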