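import Pool.Agent.T2H38.CT.Defs
import Pool.Agent.T2H38.CP.Main

/-!
# Products with varieties of CM type
-/

set_option autoImplicit false
set_option linter.unusedSectionVars false

open CategoryTheory AlgebraicGeometry

universe u v

namespace Pool.Agent.T2H38.CT

open Pool.Agent.H914 Pool.Agent.H914.VarClass Pool.Agent.H914.VarClass.Obj
  Pool.Agent.H914.WeilCohomology Pool.Agent.H281R3.HT Pool.Agent.W552 Pool.Agent.TH125.Gal
  Pool.Agent.Y132.AF Pool.Agent.Y132.AH Pool.Agent.T2H38.CP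

section comb

variable {α : Type*}

/-- the list `L` is split into two parts -/
inductive Split : List α → List α → List α → Prop
  | nil : Split [] [] []
  | left (a : α) {L L₁ L₂ : List α} : Split L L₁ L₂ → Split (a :: L) (a :: L₁) L₂
  | right (a : α) {L L₁ L₂ : List α} : Split L L₁ L₂ → Split (a :: L) L₁ (a :: L₂)

theorem exists_split {L L₁ : List α} (h : L₁.Sublist L) : ∃ L₂, Split L L₁ L₂ := by
  induction h with
  | slnil => exact ⟨[], Split.nil⟩
  | cons a _ ih =>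
    obtain ⟨L₂, h⟩ := ih
    exact ⟨a :: L₂, Split.right a h⟩
  | cons_cons a _ ih =>
    obtain ⟨L₂, h⟩ := ih
    exact ⟨L₂, Split.left a h⟩

theorem Split.length {L L₁ L₂ : List α} (h : Split L L₁ L₂) :
    L₁.length + L₂.length = L.length := by
  induction h with
  | nil => rfl
  | left a _ ih => simp only [List.length_cons]; omega
  | right a _ ih => simp only [List.length_cons]; omega

theorem Split.sum {M : Type*} [AddCommMonoid M] (f : α → M) {L L₁ L₂ : List α}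
    (h : Split L L₁ L₂) : (L₁.map f).sum + (L₂.map f).sum = (L.map f).sum := by
  induction h with
  | nil => simp
  | left a _ ih => simp only [List.map_cons, List.sum_cons, ← ih]; abel
  | right a _ ih => simp only [List.map_cons, List.sum_cons, ← ih]; abel

end comb

variable {k : Type u} [Field k] {𝒱 : VarClass k} {ops : CycleOps 𝒱}
  {W : WeilCohomology.{u, 0} ops} {Ψ : HodgeData W} {E : Embeddings W}
  {ι : Type} {X : ι → 𝒱.Obj} {U : 𝒱.Obj}

/-- A basis of classes of pure level. -/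
theorem exists_basis {Z : 𝒱.Obj} (hZ : IsCMType Ψ Z) : ∃ (β : Type) (_ : Fintype β)
    (B : Module.Basis β W.K (W.H Z)) (m : β → RingAut W.K → ℤ), ∀ b, IsWt Ψ Z (m b) (B b) := by
  obtain ⟨S, hS, hSspan, hSli⟩ := exists_linearIndependent W.K
    {x : W.H Z | ∃ s, HasLevel (Ψ.on Z) s x}
  rw [show Submodule.span W.K {x : W.H Z | ∃ s, HasLevel (Ψ.on Z) s x} = ⊤ from hZ] at hSspan
  have hfin : S.Finite := hSli.setFinite
  have := hfin.fintype
  choose m hm using fun b : S => hS b.2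
  refine ⟨S, this, Module.Basis.mk hSli (by rw [Subtype.range_coe]; exact hSspan.ge), m,
    fun b => ?_⟩
  rw [Module.Basis.mk_apply]
  exact hm b

variable (X U) in
/-- pure tensors -/
inductive IsTens (Ψ : HodgeData W) : (L : List ι) → List (ι × (RingAut W.K → ℤ)) →
    (RingAut W.K → ℤ) → W.H (prodList X U L) → Prop
  | nil {r : RingAut W.K → ℤ} {u : W.H U} : u ≠ 0 → IsWt Ψ U r u → IsTens Ψ [] [] r u
  | cons {i : ι} {L : List ι} {m : RingAut W.K → ℤ} {Λ : List (ι × (RingAut W.K → ℤ))}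
      {r : RingAut W.K → ℤ} {x : W.H (X i)} {y : W.H (prodList X U L)} :
      x ≠ 0 → IsWt Ψ (X i) m x → IsTens Ψ L Λ r y → IsTens Ψ (i :: L) ((i, m) :: Λ) r
        (W.map (fst (X i) (prodList X U L)) x * W.map (snd (X i) (prodList X U L)) y)

theorem IsTens.map_fst {L : List ι} {Λ : List (ι × (RingAut W.K → ℤ))} {r : RingAut W.K → ℤ}
    {z : W.H (prodList X U L)} (h : IsTens X U Ψ L Λ r z) : Λ.map Prod.fst = L := by
  induction h with
  | nil _ _ => rfl
  | cons _ _ _ ih => rw [List.map_cons, ih]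

theorem IsTens.isWt {L : List ι} {Λ : List (ι × (RingAut W.K → ℤ))} {r : RingAut W.K → ℤ}
    {z : W.H (prodList X U L)} (h : IsTens X U Ψ L Λ r z) :
    IsWt Ψ (prodList X U L) ((Λ.map Prod.snd).sum + r) z := by
  induction h with
  | nil _ h =>
    rw [List.map_nil, List.sum_nil, zero_add]
    exact h
  | cons _ hx _ ih =>
    rw [List.map_cons, List.sum_cons, add_assoc]
    exact (hx.map _).mul (ih.map _)

theorem IsTens.char {L : List ι} {Λ : List (ι × (RingAut W.K → ℤ))} {r : RingAut W.K → ℤ}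
    {z : W.H (prodList X U L)} (h : IsTens X U Ψ L Λ r z) :
    (∀ a ∈ Λ, IsCharacter Ψ (X a.1) a.2) ∧ IsCharacter Ψ U r := by
  induction h with
  | nil h0 h => exact ⟨fun a ha => absurd ha List.not_mem_nil, ⟨_, h0, h⟩⟩
  | cons hx0 hx _ ih =>
    refine ⟨fun a ha => ?_, ih.2⟩
    rcases List.mem_cons.1 ha with rfl | ha
    · exact ⟨_, hx0, hx⟩
    · exact ih.1 a ha

/-- **Spanning.** -/
theorem mem_span_tens (hX : ∀ i, IsCMType Ψ (X i)) (L : List ι) {s : RingAut W.K → ℤ}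
    {y : W.H (prodList X U L)} (hy : IsWt Ψ (prodList X U L) s y) :
    y ∈ Submodule.span W.K {z | ∃ Λ r, (Λ.map Prod.snd).sum + r = s ∧
      IsTens X U Ψ L Λ r z} := by
  induction L generalizing s with
  | nil =>
    by_cases h0 : y = 0
    · rw [h0]
      exact Submodule.zero_mem _
    · exact Submodule.subset_span ⟨[], s, by simp, IsTens.nil h0 hy⟩
  | cons i L ih =>
    obtain ⟨β, _, B, m, hB⟩ := exists_basis (hX i)
    have h1 : y = ∑ b, W.map (fst (X i) (prodList X U L)) (B b) *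
        W.map (snd (X i) (prodList X U L)) (ctr (B.coord b) y) := expand B y
    rw [h1]
    refine Submodule.sum_mem _ fun b _ => ?_
    have h2 := ih (IsWt.coord B hB hy b)
    have h3 : ∀ v ∈ Submodule.span W.K {z | ∃ Λ r, (Λ.map Prod.snd).sum + r = s - m b ∧
        IsTens X U Ψ L Λ r z}, W.map (fst (X i) (prodList X U L)) (B b) *
          W.map (snd (X i) (prodList X U L)) v ∈ Submodule.span W.K {z | ∃ Λ r,
            (Λ.map Prod.snd).sum + r = s ∧ IsTens X U Ψ (i :: L) Λ r z} := by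
      intro v hv
      refine Submodule.span_induction (p := fun v _ =>
        W.map (fst (X i) (prodList X U L)) (B b) *
          W.map (snd (X i) (prodList X U L)) v ∈ Submodule.span W.K {z | ∃ Λ r,
            (Λ.map Prod.snd).sum + r = s ∧ IsTens X U Ψ (i :: L) Λ r z}) ?_ ?_ ?_ ?_ hv
      · rintro v ⟨Λ, r, hs, hv⟩
        refine Submodule.subset_span ⟨(i, m b) :: Λ, r, ?_, IsTens.cons (B.ne_zero b) (hB b) hv⟩
        rw [List.map_cons, List.sum_cons, add_assoc, hs]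
        abel
      · rw [map_zero, mul_zero]
        exact Submodule.zero_mem _
      · intro v w _ _ hv hw
        rw [map_add, mul_add]
        exact Submodule.add_mem _ hv hw
      · intro c v _ hv
        rw [map_smul, mul_smul_comm]
        exact Submodule.smul_mem _ _ hv
    exact h3 _ h2

theorem map_lift_mul {A Y Y₁ : 𝒱.Obj} (f₁ : Y ⟶ Y₁) (x : W.H A) (z : W.H Y₁) :
    W.map (lift (fst A Y) (snd A Y ≫ f₁)) (W.map (fst A Y₁) x * W.map (snd A Y₁) z) =
      W.map (fst A Y) x * W.map (snd A Y) (W.map f₁ z) := by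
  rw [map_mul, ← W.map_comp, ← W.map_comp, ← W.map_comp, Obj.lift_fst, Obj.lift_snd]

theorem split_left {A Y Y₁ Y₂ : 𝒱.Obj} (f₁ : Y ⟶ Y₁) (f₂ : Y ⟶ Y₂) (x : W.H A) (z₁ : W.H Y₁)
    (z₂ : W.H Y₂) (ε : W.K) :
    W.map (fst A Y) x * W.map (snd A Y) (ε • (W.map f₁ z₁ * W.map f₂ z₂)) =
      ε • (W.map (lift (fst A Y) (snd A Y ≫ f₁)) (W.map (fst A Y₁) x * W.map (snd A Y₁) z₁) *
        W.map (snd A Y ≫ f₂) z₂) := by
  rw [map_lift_mul, W.map_comp, map_smul, map_mul, mul_smul_comm, mul_assoc]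

theorem split_right {A Y Y₁ Y₂ : 𝒱.Obj} (f₁ : Y ⟶ Y₁) (f₂ : Y ⟶ Y₂) {x : W.H A} {z₁ : W.H Y₁}
    (z₂ : W.H Y₂) (ε : W.K) {d d' : ℕ} (hd : x ∈ W.gr A d) (hd' : z₁ ∈ W.gr Y₁ d') :
    W.map (fst A Y) x * W.map (snd A Y) (ε • (W.map f₁ z₁ * W.map f₂ z₂)) =
      (ε * (-1 : W.K) ^ (d * d')) • (W.map (snd A Y ≫ f₁) z₁ *
        W.map (lift (fst A Y) (snd A Y ≫ f₂)) (W.map (fst A Y₂) x * W.map (snd A Y₂) z₂)) := by
  have h5 := W.comm (W.map_mem (fst A Y) hd) (W.map_mem (snd A Y ≫ f₁) hd')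
  rw [map_lift_mul, map_smul, map_mul, mul_smul_comm, ← mul_assoc, ← W.map_comp, h5,
    smul_mul_assoc, smul_smul, mul_assoc]

/-- **Splitting.** -/
theorem IsTens.split (h1 : (1 : W.H U) ≠ 0) (hw1 : IsWt Ψ U 0 1)
    {Λ Λ₁ Λ₂ : List (ι × (RingAut W.K → ℤ))}
    (hs : Split Λ Λ₁ Λ₂) {L : List ι} {r : RingAut W.K → ℤ} {z : W.H (prodList X U L)}
    (h : IsTens X U Ψ L Λ r z) :
    ∃ (L₁ L₂ : List ι) (f₁ : prodList X U L ⟶ prodList X U L₁)
      (f₂ : prodList X U L ⟶ prodList X U L₂) (z₁ : W.H (prodList X U L₁))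
      (z₂ : W.H (prodList X U L₂)) (ε : W.K), IsTens X U Ψ L₁ Λ₁ 0 z₁ ∧
      IsTens X U Ψ L₂ Λ₂ r z₂ ∧ z = ε • (W.map f₁ z₁ * W.map f₂ z₂) := by
  induction hs generalizing L z with
  | nil =>
    cases h with
    | nil h0 h =>
      refine ⟨[], [], 𝟙 _, 𝟙 _, (1 : W.H U), _, 1, IsTens.nil h1 hw1, IsTens.nil h0 h, ?_⟩
      have h3 : ∀ u : W.H U, u = (1 : W.K) • (W.map (𝟙 U) (1 : W.H U) * W.map (𝟙 U) u) := by
        intro u
        rw [map_one, one_mul, one_smul, W.map_id]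
      exact h3 _
  | left a hs ih =>
    cases h with
    | @cons i L m _ _ x y hx0 hx h =>
      obtain ⟨L₁, L₂, f₁, f₂, z₁, z₂, ε, h2, h3, h4⟩ := ih h
      refine ⟨i :: L₁, L₂, lift (fst (X i) (prodList X U L)) (snd (X i) (prodList X U L) ≫ f₁),
        snd (X i) (prodList X U L) ≫ f₂,
        W.map (fst (X i) (prodList X U L₁)) x * W.map (snd (X i) (prodList X U L₁)) z₁, z₂, ε,
        IsTens.cons hx0 hx h2, h3, ?_⟩
      rw [h4]
      exact split_left f₁ f₂ x z₁ z₂ ε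
  | right a hs ih =>
    cases h with
    | @cons i L m _ _ x y hx0 hx h =>
      obtain ⟨L₁, L₂, f₁, f₂, z₁, z₂, ε, h2, h3, h4⟩ := ih h
      obtain ⟨d, hd⟩ := hx.gr
      obtain ⟨d', hd'⟩ := h2.isWt.gr
      refine ⟨L₁, i :: L₂, snd (X i) (prodList X U L) ≫ f₁,
        lift (fst (X i) (prodList X U L)) (snd (X i) (prodList X U L) ≫ f₂), z₁,
        W.map (fst (X i) (prodList X U L₂)) x * W.map (snd (X i) (prodList X U L₂)) z₂,
        ε * (-1 : W.K) ^ (d * d'), h2, IsTens.cons hx0 hx h3, ?_⟩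
      rw [h4]
      exact split_right f₁ f₂ z₂ ε hd hd'

/-- **Pure tensors of level zero.** -/
theorem tens_mem (h1 : (1 : W.H U) ≠ 0)
    (hprim : ∀ L, IsPrimitiveFor Ψ X U L → AllAbsolute Ψ E (prodList X U L)) : ∀ (n : ℕ)
    (Λ : List (ι × (RingAut W.K → ℤ))), Λ.length ≤ n → ∀ (L : List ι) (r : RingAut W.K → ℤ)
    (z : W.H (prodList X U L)), IsTens X U Ψ L Λ r z → (Λ.map Prod.snd).sum + r = 0 →
      z ∈ (absSystem Ψ E).C (prodList X U L) := by
  intro n
  induction n with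
  | zero =>
    intro Λ hΛ L r z hz h0
    have hnil : Λ = [] := List.length_eq_zero_iff.1 (Nat.le_zero.1 hΛ)
    refine mem_abs (hprim L ⟨Λ, r, hz.map_fst, hz.char.1, hz.char.2, h0, fun Λ' h _ => ?_⟩) ?_
    · left
      rw [hnil] at h
      exact List.sublist_nil.1 h
    · rw [← h0]
      exact hz.isWt
  | succ n ih =>
    intro Λ hΛ L r z hz h0
    by_cases hp : ∀ Λ' : List (ι × (RingAut W.K → ℤ)), Λ'.Sublist Λ →
        (Λ'.map Prod.snd).sum = 0 → Λ' = [] ∨ Λ' = Λ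
    · refine mem_abs (hprim L ⟨Λ, r, hz.map_fst, hz.char.1, hz.char.2, h0, hp⟩) ?_
      rw [← h0]
      exact hz.isWt
    · push Not at hp
      obtain ⟨Λ₁, hsub, hsum, hne, hne'⟩ := hp
      obtain ⟨Λ₂, hs⟩ := exists_split hsub
      obtain ⟨L₁, L₂, f₁, f₂, z₁, z₂, ε, h2, h3, h4⟩ := IsTens.split h1 (IsWt.hodge (isAbs_one Ψ E U).1) hs hz
      have hlen := hs.length
      have hsum2 := hs.sum Prod.snd
      have hl1 : Λ₁.length ≠ 0 := fun h => hne (List.length_eq_zero_iff.1 h)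
      have hl2 : Λ₁.length < Λ.length := by
        refine lt_of_le_of_ne hsub.length_le fun h => hne' ?_
        exact hsub.eq_of_length h
      rw [h4]
      refine Submodule.smul_mem _ _ ((absSystem Ψ E).mul_mem ((absSystem Ψ E).map_mem _
        (ih Λ₁ (by omega) L₁ 0 z₁ h2 (by rw [hsum, add_zero])))
        ((absSystem Ψ E).map_mem _ (ih Λ₂ (by omega) L₂ r z₂ h3 ?_)))
      rw [hsum, zero_add] at hsum2
      rw [hsum2, h0]

/-- If `1 = 0` then the cohomology is zero. -/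
theorem eq_zero_of_one {Y : 𝒱.Obj} (h : (1 : W.H Y) = 0) (y : W.H Y) : y = 0 := by
  rw [← mul_one y, h, mul_zero]

/-- **Reduction to the primitive products.** -/
theorem abs_of_primitive [IsAlgClosed W.K] (hX : ∀ i, IsCMType Ψ (X i))
    (hprim : ∀ L, IsPrimitiveFor Ψ X U L → AllAbsolute Ψ E (prodList X U L)) (L : List ι) :
    AllAbsolute Ψ E (prodList X U L) := by
  by_cases h1 : (1 : W.H U) = 0
  · -- the cohomology is zero
    have h2 : ∀ L : List ι, (1 : W.H (prodList X U L)) = 0 := by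
      intro L
      induction L with
      | nil => exact h1
      | cons i L ih =>
        have h3 := congrArg (W.map (snd (X i) (prodList X U L))) ih
        rw [map_one, map_zero] at h3
        exact h3
    intro j c _
    rw [eq_zero_of_one (h2 L) c]
    exact isAbs_zero Ψ E _ j
  · rw [← hodgeIn_abs]
    intro j c hc
    have h2 := mem_span_tens hX L (IsWt.hodge hc)
    refine (Submodule.span_le.2 ?_ : _ ≤ (absSystem Ψ E).C _) h2
    rintro z ⟨Λ, r, hs, hz⟩
    exact tens_mem h1 hprim Λ.length Λ le_rfl L r z hz hs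

/-- **Full faithfulness.** -/
theorem full_iff [IsAlgClosed W.K] (hX : ∀ i, IsCMType Ψ (X i)) {𝒰 : Set 𝒱.Obj}
    (h𝒰 : ∀ U ∈ 𝒰, ∀ U' ∈ 𝒰, U.prod U' ∈ 𝒰) :
    FullyFaithfulOn Ψ E (productsWith 𝒰 X) ↔ FullyFaithfulOn Ψ E (primitiveProducts Ψ 𝒰 X) := by
  constructor
  · rintro h A ⟨U, hU, L, -, e⟩ B ⟨U', hU', L', -, e'⟩
    exact h A ⟨U, hU, L, e⟩ B ⟨U', hU', L', e'⟩
  · intro h
    exact full_of_abs Ψ E h𝒰 fun U hU L => abs_of_primitive hX (fun L' hL' =>
      abs_of_full Ψ E h ⟨U, hU, L', hL', ⟨Iso.refl _⟩⟩) L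

/-- **Products without common characters.** -/
theorem abs_prod_noCommon [IsAlgClosed W.K] {Z : 𝒱.Obj} (hZ : IsCMType Ψ Z)
    (hc : NoCommon (IsCharacter Ψ Z) (IsCharacter Ψ U)) (h1 : AllAbsolute Ψ E Z)
    (h2 : AllAbsolute Ψ E U) : AllAbsolute Ψ E (Z.prod U) := by
  rw [← hodgeIn_abs]
  intro j c hcH
  obtain ⟨β, _, B, m, hB⟩ := exists_basis hZ
  rw [expand B c]
  refine Submodule.sum_mem _ fun b _ => ?_
  by_cases hu : ctr (B.coord b) c = 0
  · rw [hu, map_zero, mul_zero]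
    exact Submodule.zero_mem _
  · have h3 : IsWt Ψ U (0 - m b) (ctr (B.coord b) c) := IsWt.coord B hB (IsWt.hodge hcH) b
    rw [zero_sub] at h3
    have h4 : m b = 0 := hc (m b) ⟨B b, B.ne_zero b, hB b⟩ ⟨_, hu, h3⟩
    have h5 := hB b
    rw [h4] at h3 h5
    rw [neg_zero] at h3
    exact (absSystem Ψ E).mul_mem ((absSystem Ψ E).map_mem _ (mem_abs h1 h5))
      ((absSystem Ψ E).map_mem _ (mem_abs h2 h3))

end Pool.Agent.T2H38.CT
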